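import Pool.Agent.Y766.R11.Stm2

/-!
Symmetry of the zeros of the `L`-function of a primitive character, with multiplicity.
Adapted from `Pool.Agent.H370R2.DirGood`; here the real points of the strip are included.
-/

set_option autoImplicit false
set_option linter.unusedSectionVars false

open Complex Filter Topology Set

namespace Pool.Agent.Y929.R11

/-- reflection of a function in the critical line -/
noncomputable def refl (f : ℂ → ℂ) (s : ℂ) : ℂ := (starRingEnd ℂ) (f (1 - (starRingEnd ℂ) s))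

lemma hasDerivAt_refl {f : ℂ → ℂ} {f' s : ℂ} (h : HasDerivAt f f' (1 - (starRingEnd ℂ) s)) :
    HasDerivAt (refl f) (-(starRingEnd ℂ) f') s := by
  have h1 : HasDerivAt (fun z => f (1 - z)) (-f') ((starRingEnd ℂ) s) := by
    have := HasDerivAt.comp ((starRingEnd ℂ) s) h ((hasDerivAt_id ((starRingEnd ℂ) s)).const_sub 1)
    simpa [Function.comp_def] using this
  have h2 := h1.conj_conj
  rw [Complex.conj_conj, map_neg] at h2
  exact h2

lemma continuous_osc : Continuous (fun s : ℂ => 1 - (starRingEnd ℂ) s) := by fun_prop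

lemma analyticAt_refl {f : ℂ → ℂ} {s : ℂ} (h : AnalyticAt ℂ f (1 - (starRingEnd ℂ) s)) :
    AnalyticAt ℂ (refl f) s := by
  rw [analyticAt_iff_eventually_differentiableAt] at h ⊢
  have h2 := (continuous_osc.tendsto s).eventually h
  filter_upwards [h2] with z hz
  exact (hasDerivAt_refl hz.hasDerivAt).differentiableAt

lemma order_refl {f : ℂ → ℂ} {s : ℂ} (h : AnalyticAt ℂ f (1 - (starRingEnd ℂ) s)) :
    analyticOrderAt (refl f) s = analyticOrderAt f (1 - (starRingEnd ℂ) s) := by
  rcases eq_or_ne (analyticOrderAt f (1 - (starRingEnd ℂ) s)) ⊤ with h0 | h0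
  · rw [h0, analyticOrderAt_eq_top]
    rw [analyticOrderAt_eq_top] at h0
    have h2 := (continuous_osc.tendsto s).eventually h0
    filter_upwards [h2] with z hz
    simp [refl, hz]
  · obtain ⟨n, hn⟩ := ENat.ne_top_iff_exists.mp h0
    rw [← hn]
    obtain ⟨g, hg, hg0, hfg⟩ := (h.analyticOrderAt_eq_natCast).mp hn.symm
    rw [(analyticAt_refl h).analyticOrderAt_eq_natCast]
    refine ⟨fun z => (-1) ^ n * refl g z, analyticAt_const.mul (analyticAt_refl hg), ?_, ?_⟩
    · simp [refl, hg0]
    · have h2 := (continuous_osc.tendsto s).eventually hfg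
      filter_upwards [h2] with z hz
      simp only [refl, hz, smul_eq_mul, map_mul, map_pow, map_sub, map_one, Complex.conj_conj]
      rw [← mul_assoc, ← mul_pow]
      congr 2
      ring

/-! ### the L-function -/

variable {q : ℕ} [NeZero q] (χ : DirichletCharacter ℂ q)

lemma LFunction_conj (s : ℂ) (hs : s ≠ 1) :
    DirichletCharacter.LFunction χ⁻¹ ((starRingEnd ℂ) s) =
      (starRingEnd ℂ) (DirichletCharacter.LFunction χ s) := by
  have hg_an : AnalyticOnNhd ℂ (fun z ↦ (starRingEnd ℂ)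
      (DirichletCharacter.LFunction χ⁻¹ ((starRingEnd ℂ) z))) {1}ᶜ :=
    DifferentiableOn.analyticOnNhd
      (fun z hz ↦ (differentiableAt_conj_conj_iff.mpr <|
        DirichletCharacter.differentiableAt_LFunction _ _ (Or.inl <|
        (map_ne_one_iff _ (starRingEnd ℂ).injective).mpr hz)).differentiableWithinAt)
      isOpen_compl_singleton
  have hf_an : AnalyticOnNhd ℂ (DirichletCharacter.LFunction χ) {1}ᶜ :=
    DifferentiableOn.analyticOnNhd
      (fun z hz ↦ (DirichletCharacter.differentiableAt_LFunction _ _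
        (Or.inl hz)).differentiableWithinAt) isOpen_compl_singleton
  have hgz (z : ℂ) (hz : 1 < z.re) : (starRingEnd ℂ)
      (DirichletCharacter.LFunction χ⁻¹ ((starRingEnd ℂ) z)) = DirichletCharacter.LFunction χ z := by
    rw [DirichletCharacter.LFunction_eq_LSeries _ (by rwa [conj_re]),
      DirichletCharacter.LFunction_eq_LSeries _ hz, LSeries, LSeries, conj_tsum]
    refine tsum_congr fun n ↦ ?_
    rcases eq_or_ne n 0 with rfl | hn
    · simp
    · rw [LSeries.term_of_ne_zero hn, LSeries.term_of_ne_zero hn, map_div₀,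
        ← conj_cpow _ _ (by rw [natCast_arg]; positivity), conj_natCast,
        ← MulChar.star_apply']
      simp
  have heq : EqOn (fun z ↦ (starRingEnd ℂ)
      (DirichletCharacter.LFunction χ⁻¹ ((starRingEnd ℂ) z))) (DirichletCharacter.LFunction χ) {1}ᶜ :=
    hg_an.eqOn_of_preconnected_of_eventuallyEq hf_an
      (isConnected_compl_singleton_of_one_lt_rank (by simp) 1).isPreconnected
      (by norm_num : (2 : ℂ) ∈ _)
      (eventuallyEq_of_mem
        ((isOpen_lt continuous_const continuous_re).mem_nhds (by norm_num)) hgz)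
  simpa using congrArg (starRingEnd ℂ) (heq hs)

variable {χ}

/-- analytic at every point other than `1` -/
lemma analyticAt_L {s : ℂ} (hs : s ≠ 1) : AnalyticAt ℂ (DirichletCharacter.LFunction χ) s := by
  have hf_an : AnalyticOnNhd ℂ (DirichletCharacter.LFunction χ) {1}ᶜ :=
    DifferentiableOn.analyticOnNhd
      (fun z hz ↦ (DirichletCharacter.differentiableAt_LFunction _ _
        (Or.inl hz)).differentiableWithinAt) isOpen_compl_singleton
  exact hf_an s hs

/-- parity of the inverse character -/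
lemma inv_even_iff : (χ⁻¹).Even ↔ χ.Even := by
  unfold DirichletCharacter.Even
  rw [MulChar.inv_apply_eq_inv', inv_eq_one]

lemma gammaFactor_inv (s : ℂ) :
    DirichletCharacter.gammaFactor χ⁻¹ s = DirichletCharacter.gammaFactor χ s := by
  by_cases h : χ.Even
  · rw [DirichletCharacter.Even.gammaFactor_def h, DirichletCharacter.Even.gammaFactor_def
      (inv_even_iff.mpr h)]
  · have h' : ¬ (χ⁻¹).Even := fun h2 => h (inv_even_iff.mp h2)
    simp [DirichletCharacter.gammaFactor, h, h']

/-- the shift -/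
noncomputable def aa (χ : DirichletCharacter ℂ q) : ℂ := by
  classical
  exact if χ.Even then 0 else 1

lemma gammaFactor_eq (s : ℂ) :
    DirichletCharacter.gammaFactor χ s = Gammaℝ (s + aa χ) := by
  unfold DirichletCharacter.gammaFactor aa
  split_ifs <;> simp

lemma aa_im : (aa χ).im = 0 := by
  unfold aa
  split_ifs <;> simp

lemma aa_re : 0 ≤ (aa χ).re := by
  unfold aa
  split_ifs <;> simp

/-- the points where both gamma factors are finite and nonzero -/
def Ok (χ : DirichletCharacter ℂ q) (s : ℂ) : Prop :=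
  s ≠ 0 ∧ s ≠ 1 ∧ Gammaℝ (s + aa χ) ≠ 0 ∧ Gammaℝ (1 - s + aa χ) ≠ 0

lemma ok_strip {s : ℂ} (h0 : 0 < s.re) (h1 : s.re < 1) : Ok χ s := by
  have ha := aa_re (χ := χ)
  refine ⟨fun h => ?_, fun h => ?_, ?_, ?_⟩
  · rw [h] at h0
    simp at h0
  · rw [h] at h1
    simp at h1
  · exact Gammaℝ_ne_zero_of_re_pos (by rw [add_re]; linarith)
  · exact Gammaℝ_ne_zero_of_re_pos (by rw [add_re, sub_re, one_re]; linarith)

lemma Gammaℝ_ne_zero_of_im {s : ℂ} (hs : s.im ≠ 0) : Gammaℝ s ≠ 0 := by
  intro h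
  rw [Gammaℝ_eq_zero_iff] at h
  obtain ⟨n, hn⟩ := h
  apply hs
  rw [hn]
  simp

lemma ok_im {s : ℂ} (hs : s.im ≠ 0) : Ok χ s := by
  refine ⟨fun h => hs (by rw [h]; simp), fun h => hs (by rw [h]; simp), ?_, ?_⟩
  · apply Gammaℝ_ne_zero_of_im
    simpa [aa_im] using hs
  · apply Gammaℝ_ne_zero_of_im
    simpa [aa_im] using hs

/-- the factor of the asymmetric functional equation -/
noncomputable def XX (χ : DirichletCharacter ℂ q) (s : ℂ) : ℂ :=
  (q : ℂ) ^ (1 / 2 - s) * DirichletCharacter.rootNumber χ * Gammaℝ (1 - s + aa χ) /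
    Gammaℝ (s + aa χ)

/-- asymmetric functional equation -/
lemma func_eq (hχ : χ.IsPrimitive) {s : ℂ} (hs : Ok χ s) :
    DirichletCharacter.LFunction χ s =
      XX χ s * refl (DirichletCharacter.LFunction χ) s := by
  obtain ⟨hs0, hs1, hg, hg'⟩ := hs
  rw [← gammaFactor_eq] at hg hg'
  have h1s0 : (1 - s) ≠ 0 := sub_ne_zero.2 hs1.symm
  have h1 : DirichletCharacter.completedLFunction χ s =
      DirichletCharacter.LFunction χ s * DirichletCharacter.gammaFactor χ s := by
    rw [DirichletCharacter.LFunction_eq_completed_div_gammaFactor χ s (Or.inl hs0),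
      div_mul_cancel₀ _ hg]
  have h2 : DirichletCharacter.completedLFunction χ⁻¹ (1 - s) =
      DirichletCharacter.LFunction χ⁻¹ (1 - s) * DirichletCharacter.gammaFactor χ (1 - s) := by
    rw [DirichletCharacter.LFunction_eq_completed_div_gammaFactor χ⁻¹ (1 - s) (Or.inl h1s0),
      gammaFactor_inv, div_mul_cancel₀ _ hg']
  have h3 := DirichletCharacter.IsPrimitive.completedLFunction_one_sub hχ (1 - s)
  rw [show (1 : ℂ) - (1 - s) = s by ring, h1, h2] at h3
  have h4 : DirichletCharacter.LFunction χ⁻¹ (1 - s) = refl (DirichletCharacter.LFunction χ) s := by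
    have h5 : (1 - (starRingEnd ℂ) s) ≠ 1 := by
      intro h
      rw [sub_eq_self, map_eq_zero] at h
      exact hs0 h
    have := LFunction_conj χ _ h5
    rw [refl, ← this]
    congr 1
    simp
  rw [h4] at h3
  unfold XX
  rw [← gammaFactor_eq, ← gammaFactor_eq, eq_comm, div_mul_eq_mul_div, div_eq_iff hg, h3]
  rw [show (1 : ℂ) - s - 1 / 2 = 1 / 2 - s by ring]
  ring

lemma rootNumber_ne_zero (hχ : χ.IsPrimitive) : DirichletCharacter.rootNumber χ ≠ 0 := by
  intro h0
  have h2 : ((2 : ℂ) + I).im ≠ 0 := by simp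
  have h := func_eq hχ (ok_im h2)
  have hne : DirichletCharacter.LFunction χ (2 + I) ≠ 0 :=
    DirichletCharacter.LFunction_ne_zero_of_one_le_re χ (Or.inr (ok_im (χ := χ) h2).2.1) (by simp)
  apply hne
  rw [h]
  simp [XX, h0]

lemma natCast_q_ne : ((q : ℕ) : ℂ) ≠ 0 := by
  exact_mod_cast NeZero.ne q

lemma analyticAt_Gammaℝ {s : ℂ} (hs : Gammaℝ s ≠ 0) : AnalyticAt ℂ Gammaℝ s := by
  have h1 : AnalyticAt ℂ (fun s ↦ (Gammaℝ s)⁻¹) s := by
    rw [analyticAt_iff_eventually_differentiableAt]
    exact Filter.Eventually.of_forall fun z => differentiable_Gammaℝ_inv z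
  have h2 := h1.inv (inv_ne_zero hs)
  simpa [Pi.inv_def] using h2

lemma analyticAt_XX {s : ℂ} (hs : Ok χ s) : AnalyticAt ℂ (XX χ) s := by
  have h1 : AnalyticAt ℂ (fun z : ℂ => Gammaℝ (z + aa χ)) s :=
    AnalyticAt.fun_comp (f := fun z : ℂ => z + aa χ) (g := Gammaℝ)
      (analyticAt_Gammaℝ hs.2.2.1) (by fun_prop)
  have h2 : AnalyticAt ℂ (fun z : ℂ => Gammaℝ (1 - z + aa χ)) s :=
    AnalyticAt.fun_comp (f := fun z : ℂ => 1 - z + aa χ) (g := Gammaℝ)
      (analyticAt_Gammaℝ hs.2.2.2) (by fun_prop)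
  have h3 : AnalyticAt ℂ (fun z : ℂ => (q : ℂ) ^ (1 / 2 - z)) s := by
    rw [analyticAt_iff_eventually_differentiableAt]
    refine Filter.Eventually.of_forall fun z => ?_
    exact DifferentiableAt.const_cpow (by fun_prop) (Or.inl natCast_q_ne)
  exact ((h3.mul analyticAt_const).mul h2).div h1 hs.2.2.1

lemma XX_ne_zero (hχ : χ.IsPrimitive) {s : ℂ} (hs : Ok χ s) : XX χ s ≠ 0 := by
  unfold XX
  refine div_ne_zero (mul_ne_zero (mul_ne_zero ?_ (rootNumber_ne_zero hχ)) hs.2.2.2) hs.2.2.1
  rw [Ne, cpow_eq_zero_iff]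
  exact fun h => natCast_q_ne h.1

lemma L_symm (hχ : χ.IsPrimitive) {s : ℂ} (h0 : 0 < s.re) (h1 : s.re < 1) :
    analyticOrderAt (DirichletCharacter.LFunction χ) (1 - (starRingEnd ℂ) s) =
      analyticOrderAt (DirichletCharacter.LFunction χ) s := by
  have hre : (1 - (starRingEnd ℂ) s).re = 1 - s.re := by simp
  have ha : AnalyticAt ℂ (DirichletCharacter.LFunction χ) (1 - (starRingEnd ℂ) s) :=
    analyticAt_L (ok_strip (χ := χ) (by rw [hre]; linarith) (by rw [hre]; linarith)).2.1
  have hok : Ok χ s := ok_strip h0 h1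
  have hev0 : ∀ᶠ z : ℂ in 𝓝 s, 0 < z.re :=
    (isOpen_lt continuous_const continuous_re).mem_nhds h0
  have hev1 : ∀ᶠ z : ℂ in 𝓝 s, z.re < 1 :=
    (isOpen_lt continuous_re continuous_const).mem_nhds h1
  have h1 : DirichletCharacter.LFunction χ =ᶠ[𝓝 s]
      XX χ * refl (DirichletCharacter.LFunction χ) := by
    filter_upwards [hev0, hev1] with z hz hz'
    exact func_eq hχ (ok_strip hz hz')
  rw [analyticOrderAt_congr h1, analyticOrderAt_mul (analyticAt_XX hok) (analyticAt_refl ha),
    (analyticAt_XX hok).analyticOrderAt_eq_zero.mpr (XX_ne_zero hχ hok), zero_add, order_refl ha]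

/-- SYM: the symmetry of the zeros -/
theorem sym : Pool.Agent.Y766.R11.S_SYM := by
  intro q _ _ χ hχ ρ h0 h1
  unfold analyticOrderNatAt
  rw [L_symm hχ h0 h1]

end Pool.Agent.Y929.R11
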